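import Pool.Agent.N928.FG.Defs

/-!
# Statements of the parts
-/

set_option autoImplicit false

namespace Pool.Agent.N928.FG

open Pool.Agent.Helper125 Pool.Agent.Helper125.Gam Filter Topology

/-! ### A. The walk on `ℤ` and on `A` -/

/-- positivity, symmetry, maximum at the origin -/
def S_S1 : Prop := ∀ β : ℝ, 0 < β → β ≤ 1 / 2 → ∀ (n : ℕ) (k : ℤ),
  0 ≤ s β n k ∧ s β n (-k) = s β n k ∧ s β n k ≤ s β n 0 ∧ s β n 0 ≤ 1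

/-- Fourier representation -/
def S_INT : Prop := ∀ β : ℝ, 0 < β → β ≤ 1 / 2 → ∀ n : ℕ,
  s β n 0 = ∫ x in (0:ℝ)..1, (1 - β + β * Real.cos (2 * Real.pi * x)) ^ n

/-- lower and upper bounds of the return probabilities on `ℤ` -/
def S_QB : Prop :=
  (∀ β : ℝ, 0 < β → β ≤ 1 / 2 → ∃ c : ℝ, 0 < c ∧ ∀ n : ℕ, 1 ≤ n → c / Real.sqrt n ≤ s β n 0) ∧
  (∀ b : ℝ, 0 < b → ∃ C : ℝ, 0 < C ∧ ∀ β : ℝ, b ≤ β → β ≤ 1 / 2 → ∀ n : ℕ, 1 ≤ n →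
    s β n 0 ≤ C / Real.sqrt n)

/-- the completely lazy case `β = 1/2` -/
def S_HALF : Prop := ∀ n : ℕ, s (1 / 2) n 0 ≤ 1 / Real.sqrt (3 * n + 1)

/-- the step distribution on `A` -/
def S_MU : Prop := ∀ β : ℝ, 0 < β → β ≤ 1 / 2 →
  (∀ a, 0 ≤ mu β a) ∧ (mu β).sum (fun _ t => t) = 1 ∧ (∀ a, mu β a⁻¹ = mu β a) ∧
  (∀ a, m β 0 a = if a = 1 then 1 else 0) ∧
  (∀ n a, m β (n + 1) a = (mu β).sum (fun c t => t * m β n (c⁻¹ * a))) ∧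
  (∀ n a, 0 ≤ m β n a ∧ m β n a ≤ an β n ∧ an β n ≤ 1)

/-- the return probabilities on `A` are of order `n⁻³` -/
def S_AB : Prop :=
  (∀ β : ℝ, 0 < β → β ≤ 1 / 2 → ∃ c C : ℝ, 0 < c ∧ 0 < C ∧ ∀ n : ℕ, 1 ≤ n →
    c / (n : ℝ) ^ 3 ≤ an β n ∧ an β n ≤ C / (n : ℝ) ^ 3) ∧
  (∀ b : ℝ, 0 < b → ∃ C : ℝ, 0 < C ∧ ∀ β : ℝ, b ≤ β → β ≤ 1 / 2 → ∀ n : ℕ, 1 ≤ n →
    an β n ≤ C / (n : ℝ) ^ 3)

/-- `G G'' ≥ 2 G'²`, in the form for power series multiplied by `u²` -/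
def S_CONV : Prop := ∀ β : ℝ, 0 < β → β ≤ 1 / 2 → ∀ u : ℝ, 0 ≤ u → u < 1 →
  2 * (∑' n : ℕ, (n : ℝ) * an β n * u ^ n) ^ 2 ≤
    (∑' n : ℕ, an β n * u ^ n) * (∑' n : ℕ, (n : ℝ) * ((n : ℝ) - 1) * an β n * u ^ n)

/-! ### B. The critical parameter -/

/-- the two sums are continuous functions of the parameter -/
def S_CONT : Prop := ∀ b : ℝ, 0 < b → b ≤ 1 / 2 →
  ContinuousOn (fun β => ∑' n : ℕ, an β n) (Set.Icc b (1 / 2)) ∧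
  ContinuousOn (fun β => ∑' n : ℕ, (n : ℝ) * an β n) (Set.Icc b (1 / 2))

/-- subcritical at `β = 1/2` -/
def S_UP : Prop := ∑' n : ℕ, (n : ℝ) * an (1 / 2) n < 1

/-- supercritical for some small `β` -/
def S_LOW : Prop := ∃ β : ℝ, 0 < β ∧ β ≤ 1 / 2 ∧
  2 * (∑' n : ℕ, an β n) ^ 2 < ∑' n : ℕ, (n : ℝ) * an β n

/-- the critical parameter exists -/
def S_CRIT : Prop := ∃ β : ℝ, 0 < β ∧ β ≤ 1 / 2 ∧ D β 1 = 0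

/-! ### C. Analysis at the critical parameter -/

/-- the derivative of `Z` -/
def S_DZ : Prop := ∀ β : ℝ, 0 < β → β ≤ 1 / 2 →
  (∀ u ∈ Set.Icc (0:ℝ) 1, 1 ≤ W β u) ∧ ContinuousOn (W β) (Set.Icc 0 1) ∧
  ContinuousOn (Z β) (Set.Icc 0 1) ∧ ContinuousOn (D β) (Set.Icc 0 1) ∧
  ∀ u ∈ Set.Ioo (0:ℝ) 1, HasDerivAt (Z β) (D β u / W β u ^ 2) u

/-- `D > 0` below criticality -/
def S_DPOS : Prop := ∀ β : ℝ, 0 < β → β ≤ 1 / 2 → D β 1 = 0 → ∀ u : ℝ, 0 ≤ u → u < 1 → 0 < D β u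

/-- the logarithm -/
def S_DLOG : Prop := ∀ β : ℝ, 0 < β → β ≤ 1 / 2 → D β 1 = 0 →
  ∃ c C u₀ : ℝ, 0 < c ∧ 0 < C ∧ 0 < u₀ ∧ u₀ < 1 ∧ ∀ u : ℝ, u₀ ≤ u → u < 1 →
    c * ((1 - u) * Real.log (1 / (1 - u))) ≤ D β u ∧
    D β u ≤ C * ((1 - u) * Real.log (1 / (1 - u)))

/-- behaviour of `W` at `1` -/
def S_WLIN : Prop := ∀ β : ℝ, 0 < β → β ≤ 1 / 2 →
  ∃ c C : ℝ, 0 < c ∧ 0 < C ∧ ∀ u : ℝ, 0 ≤ u → u ≤ 1 →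
    c * (1 - u) ≤ W β 1 - W β u ∧ W β 1 - W β u ≤ C * (1 - u)

/-- behaviour of `Z` at `1` -/
def S_ZLOG : Prop := ∀ β : ℝ, 0 < β → β ≤ 1 / 2 → D β 1 = 0 →
  ∃ c C u₀ : ℝ, 0 < c ∧ 0 < C ∧ 0 < u₀ ∧ u₀ < 1 ∧ ∀ u : ℝ, u₀ ≤ u → u < 1 →
    c * ((1 - u) ^ 2 * Real.log (1 / (1 - u))) ≤ Z β 1 - Z β u ∧
    Z β 1 - Z β u ≤ C * ((1 - u) ^ 2 * Real.log (1 / (1 - u)))

/-! ### D. The free product -/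

/-- the step distribution on the free product -/
def S_NU : Prop := ∀ β : ℝ, 0 < β → β ≤ 1 / 2 →
  (∀ x, 0 ≤ nu β x) ∧ (nu β).sum (fun _ t => t) = 1 ∧ (∀ x, nu β x⁻¹ = nu β x) ∧
  (∀ (h : Ga → ℝ) (x : Ga), P β h x =
    (1 / 2) * ((mu β).sum (fun a t => t * h ((inc true a)⁻¹ * x)) +
      (mu β).sum (fun a t => t * h ((inc false a)⁻¹ * x))))

/-- multiplicative functions on the free product -/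
def S_MULT : Prop := ∀ F : A → ℝ, F 1 = 1 → ∃ Φ : Ga → ℝ, Φ 1 = 1 ∧
  (∀ (b : Bool) (c : A), Φ (inc b c) = F c) ∧
  (∀ x, Φ x = ((red x).map (fun t => F t.2)).prod) ∧
  (∀ (b : Bool) (x : Ga), ∃ (a : A) (y : Ga), x = inc b a * y ∧
    ∀ c : A, Φ (inc b c * y) = F c * Φ y) ∧
  (∀ x : Ga, x ≠ 1 → ∃ (b : Bool) (a : A) (y : Ga), a ≠ 1 ∧ x = inc b a * y ∧
    (∀ c : A, Φ (inc b c * y) = F c * Φ y) ∧ (∀ c : A, Φ (inc (!b) c * x) = F c * Φ x))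

/-- the Green function of `A` -/
def S_GA : Prop := ∀ β : ℝ, 0 < β → β ≤ 1 / 2 → ∀ u : ℝ, 0 ≤ u → u < 1 →
  (∀ a, 0 ≤ Gr β u a ∧ Gr β u a ≤ GG β u) ∧ 1 ≤ GG β u ∧ Gr β u 1 = GG β u ∧
  (∀ a, Gr β u a = (if a = 1 then 1 else 0) + u * (mu β).sum (fun c t => t * Gr β u (c⁻¹ * a)))

/-- the Green function of the free product: the candidate -/
def S_HARM : Prop := ∀ β : ℝ, 0 < β → β ≤ 1 / 2 → ∀ u : ℝ, 0 < u → u < 1 →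
  ∃ g : Ga → ℝ, (∀ x, 0 ≤ g x ∧ g x ≤ W β u) ∧ g 1 = W β u ∧
    ∀ x, g x = δ x + Z β u * P β g x

/-- upper bound, and equality if `Z < 1` -/
def S_SUM1 : Prop := ∀ β : ℝ, 0 < β → β ≤ 1 / 2 → ∀ u : ℝ, 0 < u → u < 1 →
  (Summable (fun n : ℕ => p β n * Z β u ^ n)) ∧ (∑' n : ℕ, p β n * Z β u ^ n) ≤ W β u ∧
  (Z β u < 1 → (∑' n : ℕ, p β n * Z β u ^ n) = W β u)

/-- the Green function of the free product at criticality -/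
def S_SUM2 : Prop := ∀ β : ℝ, 0 < β → β ≤ 1 / 2 → D β 1 = 0 → ∀ u : ℝ, 0 < u → u < 1 →
  (Summable (fun n : ℕ => p β n * Z β u ^ n)) ∧ (∑' n : ℕ, p β n * Z β u ^ n) = W β u

/-- symmetry of the walk -/
def S_SYM : Prop := ∀ β : ℝ, 0 < β → β ≤ 1 / 2 →
  (∀ n, 0 ≤ p β n) ∧ ∀ n, p β (2 * n + 1) ^ 2 ≤ p β (2 * n) * p β (2 * n + 2)

/-! ### E. No power law -/

/-- Abelian part: lower bound -/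
def S_ABL : Prop := ∀ (q : ℕ → ℝ) (R c d : ℝ), (∀ n, 0 ≤ q n) → 0 < R → 0 < c → d ≤ 3 / 2 →
  (∀ᶠ n : ℕ in atTop, c * (n : ℝ) ^ (-d) ≤ q (2 * n) * R ^ (2 * n)) →
  (∀ z, 0 ≤ z → z < R → Summable (fun n => q n * z ^ n)) →
  ∃ c' : ℝ, 0 < c' ∧ ∃ z₀ : ℝ, 0 < z₀ ∧ z₀ < R ∧ ∀ z, z₀ ≤ z → z < R →
    ∃ z' : ℝ, z < z' ∧ z' < R ∧
      c' * Real.sqrt (R - z) ≤ (∑' n, q n * z' ^ n) - ∑' n, q n * z ^ n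

/-- Abelian part: upper bound -/
def S_ABU : Prop := ∀ (q : ℕ → ℝ) (R C d : ℝ), (∀ n, 0 ≤ q n) → 0 < R → 0 < C → 3 / 2 < d →
  (∀ n, q (2 * n + 1) ^ 2 ≤ q (2 * n) * q (2 * n + 2)) →
  (∀ᶠ n : ℕ in atTop, q (2 * n) * R ^ (2 * n) ≤ C * (n : ℝ) ^ (-d)) →
  ∃ ε C' : ℝ, 0 < ε ∧ 0 < C' ∧ ∃ z₀ : ℝ, 0 < z₀ ∧ z₀ < R ∧
    ∀ z z', z₀ ≤ z → z ≤ z' → z' < R →
      (∑' n, q n * z' ^ n) - (∑' n, q n * z ^ n) ≤ C' * (R - z) ^ (1 / 2 + ε)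

/-- the final contradiction (abstract form) -/
def S_FIN : Prop := ∀ (q : ℕ → ℝ) (W Z : ℝ → ℝ), (∀ n, 0 ≤ q n) →
  (∀ n, q (2 * n + 1) ^ 2 ≤ q (2 * n) * q (2 * n + 2)) →
  StrictMonoOn Z (Set.Icc 0 1) → ContinuousOn Z (Set.Icc 0 1) → ContinuousOn W (Set.Icc 0 1) →
  Z 0 = 0 →
  (∀ u : ℝ, 0 < u → u < 1 → Summable (fun n : ℕ => q n * Z u ^ n) ∧ (∑' n : ℕ, q n * Z u ^ n) = W u) →
  (∃ c C : ℝ, 0 < c ∧ 0 < C ∧ ∀ u : ℝ, 0 ≤ u → u ≤ 1 → c * (1 - u) ≤ W 1 - W u ∧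
    W 1 - W u ≤ C * (1 - u)) →
  (∃ c C u₀ : ℝ, 0 < c ∧ 0 < C ∧ 0 < u₀ ∧ u₀ < 1 ∧ ∀ u : ℝ, u₀ ≤ u → u < 1 →
    c * ((1 - u) ^ 2 * Real.log (1 / (1 - u))) ≤ Z 1 - Z u ∧
    Z 1 - Z u ≤ C * ((1 - u) ^ 2 * Real.log (1 / (1 - u)))) →
  ∀ ρ c d : ℝ, 0 ≤ ρ → 0 < c →
    ¬ Asymptotics.IsEquivalent atTop (fun n : ℕ => q (2 * n))
      (fun n : ℕ => c * (n : ℝ) ^ (-d) * ρ ^ (2 * n))

/-! ### F. The norm, and rapid decay -/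

/-- the norm of the convolution operator exists -/
def S_RHO : Prop := ∀ ν : Ga →₀ ℝ, (∀ x, 0 ≤ ν x) → ν.sum (fun _ t => t) = 1 →
  ∃ ρ : ℝ, 0 ≤ ρ ∧
    (∀ g : Ga →₀ ℝ, ∀ T : Finset Ga,
      ∑ x ∈ T, (ν.sum (fun y a => a * g (y⁻¹ * x))) ^ 2 ≤ ρ ^ 2 * g.sum (fun _ a => a ^ 2)) ∧
    (∀ r : ℝ, 0 ≤ r → r < ρ → ∃ g : Ga →₀ ℝ, ∃ T : Finset Ga,
      r ^ 2 * g.sum (fun _ a => a ^ 2) <
        ∑ x ∈ T, (ν.sum (fun y a => a * g (y⁻¹ * x))) ^ 2)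

/-- cancellation in the free product -/
def S_CANC : Prop := ∃ (pre : ℕ → Ga → Ga), ∀ a b : Ga, ∃ (i j : ℕ) (t : Bool) (c : A),
  i ≤ L a ∧ j ≤ L a ∧ nrm c ≤ L a ∧ pre i a = pre i (a * b) ∧
  pre j b * inc t c = a⁻¹ * pre i a

/-- the trilinear inequality -/
def S_TRI : Prop := ∃ d : ℕ, ∀ (r : ℕ) (U V C : Finset Ga) (f g h : Ga → ℝ),
  (∀ a ∈ U, L a + 1 ≤ r) → (∀ a ∈ U, 0 ≤ f a) → (∀ b ∈ V, 0 ≤ g b) →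
  (∀ a ∈ U, ∀ b ∈ V, a * b ∈ C) → (∀ c ∈ C, 0 ≤ h c) →
  ∑ a ∈ U, ∑ b ∈ V, f a * g b * h (a * b)
    ≤ ((r : ℝ) + 1) ^ d * (Real.sqrt (∑ a ∈ U, f a ^ 2) * Real.sqrt (∑ b ∈ V, g b ^ 2) *
      Real.sqrt (∑ c ∈ C, h c ^ 2))

/-- generators and the length -/
def S_GEN : Prop := Subgroup.closure (gens : Set Ga) = ⊤ ∧
  ∀ (l : List Ga), (∀ y ∈ l, y ∈ gens ∨ y⁻¹ ∈ gens) → L l.prod ≤ 6 * l.length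

/-- property RD in the form of the frozen statement -/
def S_RD : Prop := ∃ S : Finset Ga, Subgroup.closure (S : Set Ga) = ⊤ ∧
  ∃ (C : ℝ) (s : ℕ), ∀ f g : Ga →₀ ℝ, ∀ T : Finset Ga,
    ∑ x ∈ T, (f.sum (fun y a => a * g (y⁻¹ * x))) ^ 2 ≤
      C * (f.sum (fun x a => a ^ 2 *
            (1 + ((sInf {n : ℕ | ∃ l : List Ga, l.length = n ∧
                (∀ y ∈ l, y ∈ S ∨ y⁻¹ ∈ S) ∧ l.prod = x} : ℕ) : ℝ)) ^ (2 * s)))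
        * g.sum (fun _ a => a ^ 2)

end Pool.Agent.N928.FG
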