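import Pool.Agent.N928.FG.Stm

/-!
# Assembly: the critical walk on `ℤ⁶ * ℤ⁶` has no power law
-/

set_option autoImplicit false

namespace Pool.Agent.N928.FG

open Pool.Agent.Helper125 Pool.Agent.Helper125.Gam Filter Topology

/-- `Z` is strictly increasing at the critical parameter -/
lemma Z_strictMono (hDZ : S_DZ) (hDP : S_DPOS) {β : ℝ} (h0 : 0 < β) (h1 : β ≤ 1 / 2)
    (hD : D β 1 = 0) : StrictMonoOn (Z β) (Set.Icc 0 1) := by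
  obtain ⟨hW, -, hZc, -, hder⟩ := hDZ β h0 h1
  refine strictMonoOn_of_deriv_pos (convex_Icc 0 1) hZc ?_
  intro u hu
  rw [interior_Icc] at hu
  rw [(hder u hu).deriv]
  have hw : 1 ≤ W β u := hW u ⟨hu.1.le, hu.2.le⟩
  have hd : 0 < D β u := hDP β h0 h1 hD u hu.1.le hu.2
  positivity

/-- no power law for the return probabilities at the critical parameter -/
theorem no_power (hDZ : S_DZ) (hDP : S_DPOS) (hSY : S_SYM) (hS2 : S_SUM2) (hWL : S_WLIN)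
    (hZL : S_ZLOG) (hF : S_FIN) {β : ℝ} (h0 : 0 < β) (h1 : β ≤ 1 / 2) (hD : D β 1 = 0)
    (ρ c d : ℝ) (hρ : 0 ≤ ρ) (hc : 0 < c) :
    ¬ Asymptotics.IsEquivalent atTop (fun n : ℕ => p β (2 * n))
      (fun n : ℕ => c * (n : ℝ) ^ (-d) * ρ ^ (2 * n)) := by
  obtain ⟨-, hWc, hZc, -, -⟩ := hDZ β h0 h1
  refine hF (p β) (W β) (Z β) (hSY β h0 h1).1 (hSY β h0 h1).2 (Z_strictMono hDZ hDP h0 h1 hD)
    hZc hWc ?_ (fun u hu0 hu1 => hS2 β h0 h1 hD u hu0 hu1) (hWL β h0 h1) (hZL β h0 h1 hD)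
    ρ c d hρ hc
  simp [Z]

/-- everything together -/
theorem final (hDZ : S_DZ) (hDP : S_DPOS) (hSY : S_SYM) (hS2 : S_SUM2) (hWL : S_WLIN)
    (hZL : S_ZLOG) (hF : S_FIN) (hCR : S_CRIT) (hNU : S_NU) (hRHO : S_RHO) (hRD : S_RD) :
    ¬ (∀ (G : Type) [Group G],
      (∃ S : Finset G, Subgroup.closure (S : Set G) = ⊤ ∧
        ∃ (C : ℝ) (s : ℕ), ∀ f g : G →₀ ℝ, ∀ T : Finset G,
          ∑ x ∈ T, (f.sum (fun y a => a * g (y⁻¹ * x))) ^ 2 ≤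
            C * (f.sum (fun x a => a ^ 2 *
                  (1 + ((sInf {n : ℕ | ∃ l : List G, l.length = n ∧
                      (∀ y ∈ l, y ∈ S ∨ y⁻¹ ∈ S) ∧ l.prod = x} : ℕ) : ℝ)) ^ (2 * s)))
              * g.sum (fun _ a => a ^ 2)) →
      ∀ ν : G →₀ ℝ,
        (∀ x, 0 ≤ ν x) →
        ν.sum (fun _ a => a) = 1 →
        (∀ x, ν x⁻¹ = ν x) →
        ∀ ρ : ℝ, 0 ≤ ρ →
          (∀ g : G →₀ ℝ, ∀ T : Finset G,
            ∑ x ∈ T, (ν.sum (fun y a => a * g (y⁻¹ * x))) ^ 2 ≤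
              ρ ^ 2 * g.sum (fun _ a => a ^ 2)) →
          (∀ r : ℝ, 0 ≤ r → r < ρ → ∃ g : G →₀ ℝ, ∃ T : Finset G,
            r ^ 2 * g.sum (fun _ a => a ^ 2) <
              ∑ x ∈ T, (ν.sum (fun y a => a * g (y⁻¹ * x))) ^ 2) →
          ∃ c d : ℝ, 0 < c ∧
            Asymptotics.IsEquivalent Filter.atTop
              (fun n : ℕ =>
                ((fun (h : G → ℝ) (x : G) => ν.sum (fun y a => a * h (y⁻¹ * x)))^[2 * n]
                  (Set.indicator ({1} : Set G) (fun _ => (1 : ℝ)))) 1)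
              (fun n : ℕ => c * (n : ℝ) ^ (-d) * ρ ^ (2 * n))) := by
  intro H
  obtain ⟨β, h0, h1, hD⟩ := hCR
  obtain ⟨n1, n2, n3, -⟩ := hNU β h0 h1
  obtain ⟨ρ, hρ, r1, r2⟩ := hRHO (nu β) n1 n2
  obtain ⟨c, d, hc, hE⟩ := H Ga hRD (nu β) n1 n2 n3 ρ hρ r1 r2
  exact no_power hDZ hDP hSY hS2 hWL hZL hF h0 h1 hD ρ c d hρ hc hE

end Pool.Agent.N928.FG
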