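import Mathlib
import Pool.Agent.Helper125.FP

/-!
# Random walk on the free product `ℤ⁶ * ℤ⁶` at criticality: definitions
-/

set_option autoImplicit false

namespace Pool.Agent.N928.FG

open Pool.Agent.Helper125 Pool.Agent.Helper125.Gam

/-- the factor `ℤ⁶`, written multiplicatively -/
abbrev A : Type := Multiplicative (Fin 6 → ℤ)

/-- the free product `A * A` -/
abbrev Ga : Type := Gam A

/-- coordinates of an element of `A` -/
def cd (a : A) (i : Fin 6) : ℤ := Multiplicative.toAdd a i

/-- `ℓ¹` norm on `A` -/
def nrm (a : A) : ℕ := ∑ i, (cd a i).natAbs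

open Classical in
/-- the reduced list of an element of the free product -/
noncomputable def red (x : Ga) : List (Lt A) := (Monoid.CoprodI.Word.equiv x).toList

/-- the length: the sum of the `ℓ¹` norms of the syllables -/
noncomputable def L (x : Ga) : ℕ := ((red x).map (fun s => nrm s.2)).sum

/-! ### the walk on `ℤ` and on `A` -/

/-- step distribution of the lazy walk on `ℤ`: stays with probability `1 - β` -/
noncomputable def w (β : ℝ) (k : ℤ) : ℝ :=
  if k = 0 then 1 - β else if k = 1 ∨ k = -1 then β / 2 else 0

/-- `n`-step distribution of the lazy walk on `ℤ` -/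
noncomputable def s (β : ℝ) : ℕ → ℤ → ℝ
  | 0, k => if k = 0 then 1 else 0
  | n + 1, k => (1 - β) * s β n k + β / 2 * (s β n (k - 1) + s β n (k + 1))

/-- laziness in the coordinates: `1/2` in the first one, `β` in the others -/
noncomputable def bet (β : ℝ) (i : Fin 6) : ℝ := if i = 0 then 1 / 2 else β

/-- the set of all elements with coordinates in `{-1, 0, 1}` -/
noncomputable def cube : Finset A :=
  (Fintype.piFinset (fun _ : Fin 6 => Finset.Icc (-1 : ℤ) 1)).map
    ⟨Multiplicative.ofAdd, Multiplicative.ofAdd.injective⟩

/-- mass of the step distribution on `A` -/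
noncomputable def muf (β : ℝ) (a : A) : ℝ := ∏ i, w (bet β i) (cd a i)

lemma muf_ne (β : ℝ) (a : A) (h : muf β a ≠ 0) : a ∈ cube := by
  rw [cube, Finset.mem_map]
  refine ⟨Multiplicative.toAdd a, ?_, rfl⟩
  rw [Fintype.mem_piFinset]
  intro i
  have h1 : w (bet β i) (cd a i) ≠ 0 := by
    intro h0
    exact h (Finset.prod_eq_zero (Finset.mem_univ i) h0)
  rw [Finset.mem_Icc]
  unfold w cd at h1
  split_ifs at h1 with h2 h3
  · constructor <;> omega
  · rcases h3 with h3 | h3 <;> constructor <;> omega
  · exact absurd rfl h1

/-- step distribution on `A`: independent coordinates -/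
noncomputable def mu (β : ℝ) : A →₀ ℝ := Finsupp.onFinset cube (muf β) (muf_ne β)

/-- `n`-step distribution on `A` -/
noncomputable def m (β : ℝ) (n : ℕ) (a : A) : ℝ := ∏ i, s (bet β i) n (cd a i)

/-- return probabilities on `A` -/
noncomputable def an (β : ℝ) (n : ℕ) : ℝ := ∏ i, s (bet β i) n 0

/-- Green function of the factor -/
noncomputable def Gr (β u : ℝ) (a : A) : ℝ := ∑' n, m β n a * u ^ n

/-- Green function of the factor at the identity -/
noncomputable def GG (β u : ℝ) : ℝ := ∑' n, an β n * u ^ n

/-- `W = 2 G - 1`, the Green function of the free product -/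
noncomputable def W (β u : ℝ) : ℝ := 2 * GG β u - 1

/-- the parameter of the free product as a function of the parameter of the factor -/
noncomputable def Z (β u : ℝ) : ℝ := u * (1 + 1 / W β u)

/-- `D = W² + W - u W'` -/
noncomputable def D (β u : ℝ) : ℝ := W β u ^ 2 + W β u - 2 * ∑' n : ℕ, (n : ℝ) * an β n * u ^ n

/-! ### the walk on the free product -/

/-- step distribution on the free product: a step of the first or of the second factor -/
noncomputable def nu (β : ℝ) : Ga →₀ ℝ :=
  (1 / 2 : ℝ) • ((mu β).mapDomain (inc true) + (mu β).mapDomain (inc false))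

/-- the transition operator, in the form of the frozen statement -/
noncomputable def P (β : ℝ) (h : Ga → ℝ) (x : Ga) : ℝ := (nu β).sum (fun y a => a * h (y⁻¹ * x))

/-- the indicator of the identity -/
noncomputable def δ : Ga → ℝ := Set.indicator ({1} : Set Ga) (fun _ => (1 : ℝ))

/-- return probabilities on the free product -/
noncomputable def p (β : ℝ) (n : ℕ) : ℝ := ((P β)^[n] δ) 1

open Classical in
/-- the generating set of the free product -/
noncomputable def gens : Finset Ga := (cube.image (inc true)) ∪ (cube.image (inc false))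

end Pool.Agent.N928.FG
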