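import Pool.Agent.N928.FG.Asm

set_option autoImplicit false

namespace Pool.Agent.N928.FG.Sum2

open Pool.Agent.N928.FG Filter Topology Set

/-- the sum of a real power series is analytic where the series converges -/
lemma analytic_tsum (a : ℕ → ℝ) (r : ℝ)
    (h : ∀ z, 0 < z → z < r → Summable (fun n => a n * z ^ n)) (x : ℝ) (hx : |x| < r) :
    AnalyticAt ℝ (fun z : ℝ => ∑' n, a n * z ^ n) x := by
  obtain ⟨r', h1, h2⟩ := exists_between hx
  have hr' : 0 < r' := lt_of_le_of_lt (abs_nonneg x) h1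
  have hs := (h r' hr' h2).abs
  let q : FormalMultilinearSeries ℝ ℝ ℝ := FormalMultilinearSeries.ofScalars ℝ a
  obtain ⟨rr, hrr⟩ : ∃ rr : NNReal, (rr : ℝ) = r' := ⟨⟨r', hr'.le⟩, rfl⟩
  have hrad : (rr : ENNReal) ≤ q.radius := by
    apply FormalMultilinearSeries.le_radius_of_summable
    refine hs.congr ?_
    intro n
    rw [abs_mul, abs_of_nonneg (pow_nonneg hr'.le n)]
    simp only [q, FormalMultilinearSeries.ofScalars_norm, Real.norm_eq_abs]
    rw [hrr]
  have hpos : 0 < q.radius := lt_of_lt_of_le (by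
    rw [ENNReal.coe_pos, ← NNReal.coe_pos, hrr]; exact hr') hrad
  have hq := q.hasFPowerSeriesOnBall hpos
  have hsum : q.sum = fun z : ℝ => ∑' n, a n * z ^ n := by
    funext z
    have := FormalMultilinearSeries.ofScalars_sum_eq (E := ℝ) a z
    simpa [FormalMultilinearSeries.ofScalarsSum, smul_eq_mul, q] using this
  rw [← hsum]
  apply hq.analyticAt_of_mem
  rw [Metric.mem_eball, edist_zero_right]
  refine lt_of_lt_of_le ?_ hrad
  rw [enorm_eq_nnnorm, ENNReal.coe_lt_coe, ← NNReal.coe_lt_coe, hrr]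
  simpa using h1

theorem t_SUM2 : S_SUM1 → S_DZ → S_DPOS → S_AB → S_S1 → S_SUM2 := by
  intro hS1 hDZ hDP hAB hs β h0 h1 hD u hu0 hu1
  refine ⟨(hS1 β h0 h1 u hu0 hu1).1, ?_⟩
  have hmono := Z_strictMono hDZ hDP h0 h1 hD
  obtain ⟨hW, hWc, hZc, -, -⟩ := hDZ β h0 h1
  have hZ0 : Z β 0 = 0 := by simp [Z]
  have hI : ∀ v ∈ Ioo (0:ℝ) 1, 0 < Z β v ∧ Z β v < Z β 1 := by
    intro v hv
    refine ⟨?_, hmono ⟨hv.1.le, hv.2.le⟩ ⟨zero_le_one, le_rfl⟩ hv.2⟩
    have := hmono (a := 0) (b := v) ⟨le_rfl, zero_le_one⟩ ⟨hv.1.le, hv.2.le⟩ hv.1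
    rwa [hZ0] at this
  -- convergence below `Z β 1`
  have hsumm : ∀ z, 0 < z → z < Z β 1 → Summable (fun n => p β n * z ^ n) := by
    intro z hz hz1
    have hmem : z ∈ Z β '' Icc 0 1 := by
      apply intermediate_value_Icc zero_le_one hZc
      rw [hZ0]; exact ⟨hz.le, hz1.le⟩
    obtain ⟨v, hv, rfl⟩ := hmem
    have hv0 : 0 < v := by
      rcases hv.1.lt_or_eq with h | h
      · exact h
      · rw [← h, hZ0] at hz; exact absurd hz (lt_irrefl _)
    have hv1 : v < 1 := by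
      rcases hv.2.lt_or_eq with h | h
      · exact h
      · rw [h] at hz1; exact absurd hz1 (lt_irrefl _)
    exact (hS1 β h0 h1 v hv0 hv1).1
  -- analyticity of `W`
  have han : ∀ n, 0 ≤ an β n ∧ an β n ≤ 1 := by
    intro n
    have hb : ∀ i, 0 < bet β i ∧ bet β i ≤ 1 / 2 := by
      intro i
      unfold bet
      split_ifs
      · constructor <;> norm_num
      · exact ⟨h0, h1⟩
    have key : ∀ i, 0 ≤ s (bet β i) n 0 ∧ s (bet β i) n 0 ≤ 1 := fun i =>
      ⟨(hs _ (hb i).1 (hb i).2 n 0).1, (hs _ (hb i).1 (hb i).2 n 0).2.2.2⟩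
    exact ⟨Finset.prod_nonneg (fun i _ => (key i).1),
      Finset.prod_le_one (fun i _ => (key i).1) (fun i _ => (key i).2)⟩
  have hWa : AnalyticOnNhd ℝ (W β) (Ioo 0 1) := by
    intro v hv
    have h2 : AnalyticAt ℝ (GG β) v := by
      apply analytic_tsum (an β) 1 _ v (by rw [abs_of_pos hv.1]; exact hv.2)
      intro z hz hz1
      refine Summable.of_nonneg_of_le (fun n => mul_nonneg (han n).1 (pow_nonneg hz.le n))
        (fun n => ?_) (summable_geometric_of_lt_one hz.le hz1)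
      exact mul_le_of_le_one_left (pow_nonneg hz.le n) (han n).2
    exact (analyticAt_const.mul h2).sub analyticAt_const
  have hZa : AnalyticOnNhd ℝ (Z β) (Ioo 0 1) := by
    intro v hv
    have hne : W β v ≠ 0 := by
      have := hW v ⟨hv.1.le, hv.2.le⟩
      linarith
    exact analyticAt_id.mul (analyticAt_const.add (analyticAt_const.div (hWa v hv) hne))
  have hf : AnalyticOnNhd ℝ (fun v => ∑' n, p β n * Z β v ^ n) (Ioo 0 1) := by
    intro v hv
    have h3 : AnalyticAt ℝ (fun z : ℝ => ∑' n, p β n * z ^ n) (Z β v) := by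
      apply analytic_tsum (p β) (Z β 1) hsumm
      rw [abs_of_pos (hI v hv).1]; exact (hI v hv).2
    exact h3.comp (hZa v hv)
  have hpre : IsPreconnected (Ioo (0:ℝ) 1) := isPreconnected_Ioo
  have hmem4 : (1/4 : ℝ) ∈ Ioo (0:ℝ) 1 := by constructor <;> norm_num
  have hev : (fun v => ∑' n, p β n * Z β v ^ n) =ᶠ[𝓝 (1/4 : ℝ)] W β := by
    have hnb : Ioo (0:ℝ) (1/2) ∈ 𝓝 (1/4 : ℝ) := Ioo_mem_nhds (by norm_num) (by norm_num)
    filter_upwards [hnb] with v hv
    have hv1 : v < 1 := lt_trans hv.2 (by norm_num)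
    apply (hS1 β h0 h1 v hv.1 hv1).2.2
    have hw : 1 ≤ W β v := hW v ⟨hv.1.le, hv1.le⟩
    have h4 : 1 / W β v ≤ 1 := by
      rw [div_le_one (by linarith)]; exact hw
    have h5 : Z β v ≤ v * (1 + 1) := by
      unfold Z
      apply mul_le_mul_of_nonneg_left _ hv.1.le
      linarith
    have := hv.2
    linarith
  exact hf.eqOn_of_preconnected_of_eventuallyEq hWa hpre hmem4 hev ⟨hu0, hu1⟩

end Pool.Agent.N928.FG.Sum2
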